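import Pool.Agent.Helper76.CQ.Defs
import Pool.Agent.Helper56.CY.StepArcVanish
import Pool.Agent.Helper86.CY.SolveNormal

/-!
# CQ-1: one step of the self-map on arcs with respect to an ideal and a subring
-/

namespace Pool.Agent.Helper30.CQ

open MvPolynomial Pool.Agent.Helper76.CY Pool.Agent.Helper76.CQ
open Pool.Agent.Helper56.CY (tri_congr tri_up row_shift)
open Pool.Agent.Helper86.CY (P6 s6 ext6 tri_ext6 ext6_low ext6_s6 low_cases eq_ext6 all_of_P6
  window_zero33 matA matA_mulVec det_matA_ne_zero algebraMap_bv tri_algebraMap mulVec_mem)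

/-! ## Membership in the subring -/

section mem

variable {K O : Type*} [Field K] [CommRing O] [Algebra K O] {S : Subring O}

theorem tri_mem_S {D : Ten K} (hDS : ∀ i j k, algebraMap K O (D i j k) ∈ S)
    {x y z : Fin 10 → O} (hx : ∀ i, x i ∈ S) (hy : ∀ i, y i ∈ S) (hz : ∀ i, z i ∈ S) :
    tri D x y z ∈ S := by
  rw [tri]
  refine S.sum_mem fun i _ => S.sum_mem fun j _ => S.sum_mem fun k _ => ?_
  exact S.mul_mem (S.mul_mem (S.mul_mem (hDS i j k) (hx i)) (hy j)) (hz k)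

theorem bv_mem_S (S : Subring O) (i j : Fin 10) : bv O i j ∈ S := by
  rw [bv_apply]
  split_ifs
  · exact S.one_mem
  · exact S.zero_mem

theorem tv_mem_S {a : Idx → O} (ha : ∀ q, a q ∈ S) (i : Fin 3) (j : Fin 10) : tv a i j ∈ S := by
  rw [tv]
  split_ifs
  · exact S.zero_mem
  · exact ha _

theorem row_mem_S {a : Idx → O} (ha : ∀ q, a q ∈ S) (i : Fin 3) (j : Fin 10) :
    row a i j ∈ S := by
  rw [row, Pi.add_apply]
  exact S.add_mem (bv_mem_S S _ _) (tv_mem_S ha i j)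

theorem det_mem_S {n : ℕ} {A : Matrix (Fin n) (Fin n) O} (hA : ∀ i j, A i j ∈ S) :
    A.det ∈ S := by
  have h : A = S.subtype.mapMatrix (Matrix.of fun i j => (⟨A i j, hA i j⟩ : S)) := by
    ext i j
    rfl
  rw [h, ← RingHom.map_det]
  exact SetLike.coe_mem (Matrix.of fun i j => (⟨A i j, hA i j⟩ : S)).det

theorem inv_mem_S (hS : ∀ x ∈ S, ∀ y : O, x * y = 1 → y ∈ S) {n : ℕ}
    {A : Matrix (Fin n) (Fin n) O} (hA : ∀ i j, A i j ∈ S) (hdet : IsUnit A.det)
    (i j : Fin n) : A⁻¹ i j ∈ S := by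
  rw [Matrix.inv_def, Matrix.smul_apply, smul_eq_mul]
  refine S.mul_mem (hS _ (det_mem_S hA) _ (Ring.mul_inverse_cancel _ hdet)) ?_
  rw [Matrix.adjugate_apply]
  refine det_mem_S fun k l => ?_
  rw [Matrix.updateRow_apply]
  split_ifs
  · rw [Pi.single_apply]
    split_ifs
    · exact S.one_mem
    · exact S.zero_mem
  · exact hA _ _

theorem mulVec_mem_S {n : ℕ} {A : Matrix (Fin n) (Fin n) O} (hA : ∀ i j, A i j ∈ S)
    {x : Fin n → O} (hx : ∀ i, x i ∈ S) (i : Fin n) : A.mulVec x i ∈ S := by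
  rw [Matrix.mulVec, dotProduct]
  exact S.sum_mem fun k _ => S.mul_mem (hA _ _) (hx _)

theorem ext6_mem_S {x : Fin 6 → O} (hx : ∀ k, x k ∈ S) (j : Fin 10) : ext6 x j ∈ S := by
  rw [ext6]
  split_ifs
  · exact S.zero_mem
  · exact hx _

end mem

/-! ## Jets -/

section jets

variable {K O : Type*} [Field K] [CommRing O] [Algebra K O]

/-- `X = x + t x₁` modulo `J`. -/
def JetM (t : O) (J : Ideal O) (X : Fin 10 → O) (x x₁ : Fin 10 → K) : Prop :=
  ∀ i, X i - (algebraMap K O (x i) + t * algebraMap K O (x₁ i)) ∈ J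

theorem t_mul_mem {t : O} {J : Ideal O} (hJ2 : Ideal.span {t ^ 2} ≤ J) {x : O}
    (hx : x ∈ Ideal.span {t}) : t * x ∈ J := by
  refine hJ2 ?_
  rw [Ideal.mem_span_singleton] at hx ⊢
  rw [pow_two]
  exact mul_dvd_mul_left t hx

theorem tri_jetM (D : Ten K) {t : O} {J : Ideal O} (hJ2 : Ideal.span {t ^ 2} ≤ J)
    {X Y Z : Fin 10 → O} {x x₁ y y₁ z z₁ : Fin 10 → K}
    (hX : JetM t J X x x₁) (hY : JetM t J Y y y₁) (hZ : JetM t J Z z z₁) :
    tri D X Y Z - (algebraMap K O (tri D x y z) +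
      t * algebraMap K O (tri D x₁ y z + tri D x y₁ z + tri D x y z₁)) ∈ J := by
  have h1 := tri_congr D J
    (x' := (fun i => algebraMap K O (x i)) + t • (fun i => algebraMap K O (x₁ i)))
    (y' := (fun i => algebraMap K O (y i)) + t • (fun i => algebraMap K O (y₁ i)))
    (z' := (fun i => algebraMap K O (z i)) + t • (fun i => algebraMap K O (z₁ i))) hX hY hZ
  have h2 : tri D ((fun i => algebraMap K O (x i)) + t • (fun i => algebraMap K O (x₁ i)))
      ((fun i => algebraMap K O (y i)) + t • (fun i => algebraMap K O (y₁ i)))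
      ((fun i => algebraMap K O (z i)) + t • (fun i => algebraMap K O (z₁ i))) -
      (algebraMap K O (tri D x y z) +
      t * algebraMap K O (tri D x₁ y z + tri D x y₁ z + tri D x y z₁)) ∈ J := by
    refine hJ2 ?_
    simp only [tri_add_left, tri_add_mid, tri_add_right, tri_smul_left, tri_smul_mid,
      tri_smul_right, tri_up, map_add]
    rw [Ideal.mem_span_singleton]
    refine ⟨algebraMap K O (tri D x y₁ z₁) + algebraMap K O (tri D x₁ y z₁) +
      algebraMap K O (tri D x₁ y₁ z) + t * algebraMap K O (tri D x₁ y₁ z₁), ?_⟩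
    ring
  have := Ideal.add_mem _ h1 h2
  rwa [sub_add_sub_cancel] at this

theorem kappa_jetM {t A B κ : O} {J : Ideal O} (hJ2 : Ideal.span {t ^ 2} ≤ J) {α β c : K}
    (hA : A - algebraMap K O α ∈ Ideal.span {t})
    (hB : B - t * algebraMap K O β ∈ J) (hβ : c * α = β) (hu : IsUnit A)
    (hκ : κ * A = B) : κ - t * algebraMap K O c ∈ J := by
  rw [← Ideal.unit_mul_mem_iff_mem _ hu]
  have h1 := Ideal.sub_mem _ hB (Ideal.mul_mem_left _ (algebraMap K O c) (t_mul_mem hJ2 hA))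
  have hβ' : algebraMap K O c * algebraMap K O α = algebraMap K O β := by rw [← map_mul, hβ]
  convert h1 using 1
  linear_combination hκ - t * hβ'

theorem mem_of_jetM {t x : O} {J : Ideal O} (hJ1 : J ≤ Ideal.span {t}) {c : K}
    (h : x - t * algebraMap K O c ∈ J) : x ∈ Ideal.span {t} := by
  have h1 := hJ1 h
  have h2 : t * algebraMap K O c ∈ Ideal.span {t} :=
    Ideal.mul_mem_right _ _ (Ideal.mem_span_singleton_self t)
  have := Ideal.add_mem _ h1 h2
  rwa [sub_add_cancel] at this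

theorem mul_mem_sqM {t x y : O} {J : Ideal O} (hJ2 : Ideal.span {t ^ 2} ≤ J)
    (hx : x ∈ Ideal.span {t}) (hy : y ∈ Ideal.span {t}) : x * y ∈ J := by
  refine hJ2 ?_
  rw [Ideal.mem_span_singleton] at hx hy ⊢
  rw [pow_two]
  exact mul_dvd_mul hx hy

theorem jet_rowM {t : O} {J : Ideal O} {τ : Idx → K} {a : Idx → O}
    (ha : ∀ q, a q - t * algebraMap K O (τ q) ∈ J)
    (i : Fin 3) : JetM t J (row a i) (bv K (c3 i)) (tv τ i) := by
  intro j
  have e : row a i j - (algebraMap K O (bv K (c3 i) j) + t * algebraMap K O (tv τ i j)) =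
      tv a i j - t * algebraMap K O (tv τ i j) := by
    rw [algebraMap_bv, row, Pi.add_apply]
    ring
  rw [e]
  by_cases h : (j : ℕ) < 3
  · simp [tv, h]
  · simpa [tv, h] using ha (i, ⟨(j : ℕ) - 3, by omega⟩)

theorem jet_sub_smulM {t κ : O} {J : Ideal O} (hJ1 : J ≤ Ideal.span {t})
    (hJ2 : Ideal.span {t ^ 2} ≤ J) {c : K} {X Y : Fin 10 → O} {x x₁ y y₁ : Fin 10 → K}
    (hX : JetM t J X x x₁) (hY : JetM t J Y y y₁) (hκ : κ - t * algebraMap K O c ∈ J) :
    JetM t J (X - κ • Y) x (x₁ - c • y) := by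
  intro j
  have h1 := hX j
  have h2 := hY j
  have h3 : Y j - algebraMap K O (y j) ∈ Ideal.span {t} := by
    have h4 := Ideal.add_mem _ (hJ1 h2) (Ideal.mul_mem_right (algebraMap K O (y₁ j)) _
      (Ideal.mem_span_singleton_self t))
    convert h4 using 1
    ring
  have h5 := Ideal.mul_mem_left _ (algebraMap K O c) (t_mul_mem hJ2 h3)
  have h6 := Ideal.sub_mem _ (Ideal.sub_mem _ h1 (Ideal.mul_mem_right (Y j) _ hκ)) h5
  simp only [Pi.sub_apply, Pi.smul_apply, smul_eq_mul, map_sub, map_mul]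
  convert h6 using 1
  ring

end jets

/-! ## The linear system -/

section solve

variable {K O : Type*} [Field K] [CommRing O] [Algebra K O] {t : O} {J : Ideal O} {D : Ten K}
  {τ : Idx → K} {a : Idx → O}

theorem tv_arc_memM (hJ1 : J ≤ Ideal.span {t}) (ha : ∀ q, a q - t * algebraMap K O (τ q) ∈ J)
    (i : Fin 3) (j : Fin 10) : tv a i j ∈ Ideal.span {t} := by
  rw [tv]
  split_ifs
  · exact zero_mem _
  · exact mem_of_jetM hJ1 (ha _)

theorem tv_arc_tangentM (ha : ∀ q, a q - t * algebraMap K O (τ q) ∈ J) (i : Fin 3)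
    (j : Fin 10) : tv a i j - t * algebraMap K O (tv τ i j) ∈ J := by
  rw [tv, tv]
  split_ifs
  · simp
  · exact ha _

theorem mk_rowM (hJ1 : J ≤ Ideal.span {t}) (ha : ∀ q, a q - t * algebraMap K O (τ q) ∈ J)
    (i : Fin 3) (j : Fin 10) :
    (Ideal.Quotient.mkₐ K (Ideal.span {t})) (row a i j) =
      (Ideal.Quotient.mkₐ K (Ideal.span {t})) (algebraMap K O (bv K (c3 i) j)) := by
  rw [Ideal.Quotient.mkₐ_eq_mk, Ideal.Quotient.mk_eq_mk_iff_sub_mem]
  have : row a i j - algebraMap K O (bv K (c3 i) j) = tv a i j := by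
    rw [row, Pi.add_apply, bv_apply, bv_apply]
    split_ifs <;> simp
  rw [this]
  exact tv_arc_memM hJ1 ha i j

theorem det_sub_memM (hJ1 : J ≤ Ideal.span {t}) (ha : ∀ q, a q - t * algebraMap K O (τ q) ∈ J) :
    (matA D (row a)).det - algebraMap K O (matA D (fun i => bv K (c3 i))).det ∈
      Ideal.span {t} := by
  rw [← Ideal.Quotient.mk_eq_mk_iff_sub_mem, RingHom.map_det, RingHom.map_det, RingHom.map_det]
  congr 1
  ext p k
  simp only [RingHom.mapMatrix_apply, Matrix.map_apply, matA]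
  rw [← Ideal.Quotient.mkₐ_eq_mk K, tri_map, tri_algebraMap, tri_map]
  simp only [mk_rowM hJ1 ha, algebraMap_bv]

theorem rhs_tangentM (hJ1 : J ≤ Ideal.span {t}) (hJ2 : Ideal.span {t ^ 2} ≤ J) (hD : Window D)
    (ha : ∀ q, a q - t * algebraMap K O (τ q) ∈ J) (i j : Fin 3) :
    tri D (bv O 3) (row a i) (row a j) - t * algebraMap K O
      (tri D (bv K 3) (tv τ i) (bv K (c3 j)) + tri D (bv K 3) (bv K (c3 i)) (tv τ j)) ∈ J := by
  have hr : ∀ i, row a i = bv O (c3 i) + tv a i := fun i => rfl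
  have h1 : tri D (bv O 3) (tv a i) (tv a j) ∈ J := by
    refine hJ2 ?_
    rw [tri_swap12 hD.swap12, tri_swap23 hD.swap23]
    have := tri_mem_mul_left_mid D (Ideal.span {t}) (Ideal.span {t}) (tv_arc_memM hJ1 ha i)
      (tv_arc_memM hJ1 ha j) (bv O 3)
    rwa [Ideal.span_singleton_mul_span_singleton, ← pow_two] at this
  have h2 : tri D (bv O 3) (tv a i) (bv O (c3 j)) - t * algebraMap K O
      (tri D (bv K 3) (tv τ i) (bv K (c3 j))) ∈ J := by
    rw [tri_algebraMap, ← tri_smul_mid]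
    simp only [algebraMap_bv]
    rw [← tri_sub_mid]
    exact tri_mem_mid D _ _ (tv_arc_tangentM ha i) _
  have h3 : tri D (bv O 3) (bv O (c3 i)) (tv a j) - t * algebraMap K O
      (tri D (bv K 3) (bv K (c3 i)) (tv τ j)) ∈ J := by
    rw [tri_algebraMap, ← tri_smul_right]
    simp only [algebraMap_bv]
    rw [← tri_sub_right]
    exact tri_mem_right D _ _ _ (tv_arc_tangentM ha j)
  have h4 := add_mem (add_mem h1 h2) h3
  rw [hr, hr, tri_add_mid, tri_add_right, tri_add_right, tri_bv, window_zero33 D hD, map_zero]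
  convert h4 using 1
  rw [map_add]
  ring

theorem solve_normalM {S : Subring O} (hJ1 : J ≤ Ideal.span {t}) (hJ2 : Ideal.span {t ^ 2} ≤ J)
    (hU : ∀ (x : O) (c : K), c ≠ 0 → x - algebraMap K O c ∈ Ideal.span {t} → IsUnit x)
    (hS : ∀ x ∈ S, ∀ y : O, x * y = 1 → y ∈ S)
    (hDS : ∀ i j k, algebraMap K O (D i j k) ∈ S)
    (hD : Window D) (ha : ∀ q, a q - t * algebraMap K O (τ q) ∈ J) (haS : ∀ q, a q ∈ S)
    (m0 : Fin 10 → K) (h0 : m0 0 = 0) (h1 : m0 1 = 0) (h2 : m0 2 = 0) (h3 : m0 3 = 0)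
    (hm0 : ∀ i j : Fin 3, tri D m0 (bv K (c3 i)) (bv K (c3 j)) +
      tri D (bv K 3) (tv τ i) (bv K (c3 j)) + tri D (bv K 3) (bv K (c3 i)) (tv τ j) = 0) :
    ∃ m : Fin 10 → O, m 0 = 0 ∧ m 1 = 0 ∧ m 2 = 0 ∧ m 3 = 0 ∧
      (∀ i j : Fin 3, tri D (bv O 3 + m) (row a i) (row a j) = 0) ∧
      (∀ k, m k - t * algebraMap K O (m0 k) ∈ J) ∧ ∀ k, m k ∈ S := by
  set A := matA D (row a) with hA
  have hdet : IsUnit A.det := hU _ _ (det_matA_ne_zero D hD) (det_sub_memM hJ1 ha)
  set b : Fin 6 → O := fun p => - tri D (bv O 3) (row a (P6 p).1) (row a (P6 p).2) with hb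
  set x : Fin 6 → O := A⁻¹.mulVec b with hx
  have hAx : A.mulVec x = b := by
    rw [hx, Matrix.mulVec_mulVec, Matrix.mul_nonsing_inv A hdet, Matrix.one_mulVec]
  have hAS : ∀ p k, A p k ∈ S := fun p k =>
    tri_mem_S hDS (bv_mem_S S _) (row_mem_S haS _) (row_mem_S haS _)
  have hbS : ∀ p, b p ∈ S := fun p =>
    S.neg_mem (tri_mem_S hDS (bv_mem_S S _) (row_mem_S haS _) (row_mem_S haS _))
  have hxS : ∀ k, x k ∈ S := mulVec_mem_S (inv_mem_S hS hAS hdet) hbS
  obtain ⟨e0, e1, e2, e3⟩ := ext6_low x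
  refine ⟨ext6 x, e0, e1, e2, e3, ?_, ?_, ext6_mem_S hxS⟩
  · intro i j
    refine all_of_P6 (fun i j => tri D (bv O 3 + ext6 x) (row a i) (row a j)) ?_ 0 ?_ i j
    · intro i j
      exact tri_swap23 hD.swap23 _ _ _
    · intro p
      rw [tri_add_left, ← matA_mulVec, ← hA, hAx, hb]
      ring
  · -- first order part
    set x0 : Fin 6 → O := fun k => algebraMap K O (m0 (s6 k)) with hx0
    set y : Fin 6 → O := x - t • x0 with hy
    have hAy : ∀ p, A.mulVec y p ∈ J := by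
      intro p
      set i := (P6 p).1 with hi
      set j := (P6 p).2 with hj
      have f1 : A.mulVec y p = b p - t * A.mulVec x0 p := by
        rw [hy, Matrix.mulVec_sub, Matrix.mulVec_smul, hAx]
        rfl
      have f2 : A.mulVec x0 p - algebraMap K O (tri D m0 (bv K (c3 i)) (bv K (c3 j))) ∈
          Ideal.span {t} := by
        rw [hA, matA_mulVec, tri_algebraMap]
        have f3 : (fun i => algebraMap K O (m0 i)) = ext6 x0 := by
          rw [hx0]
          exact eq_ext6 (fun i => algebraMap K O (m0 i)) (by simp [h0]) (by simp [h1])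
            (by simp [h2]) (by simp [h3])
        rw [f3]
        simp only [algebraMap_bv]
        have hr : ∀ i, row a i = bv O (c3 i) + tv a i := fun i => rfl
        rw [hr, hr, tri_add_mid, tri_add_right, tri_add_right]
        have g1 := tri_mem_right D (Ideal.span {t}) (ext6 x0) (bv O (c3 i)) (tv_arc_memM hJ1 ha j)
        have g2 := tri_mem_mid D (Ideal.span {t}) (ext6 x0) (tv_arc_memM hJ1 ha i) (bv O (c3 j))
        have g3 := tri_mem_mid D (Ideal.span {t}) (ext6 x0) (tv_arc_memM hJ1 ha i) (tv a j)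
        have g4 := add_mem g1 (add_mem g2 g3)
        convert g4 using 1
        ring
      have f4 : t * (A.mulVec x0 p - algebraMap K O (tri D m0 (bv K (c3 i)) (bv K (c3 j)))) ∈
          J := t_mul_mem hJ2 f2
      have f5 := rhs_tangentM hJ1 hJ2 hD ha i j
      have f6 : algebraMap K O (tri D m0 (bv K (c3 i)) (bv K (c3 j))) = - algebraMap K O
          (tri D (bv K 3) (tv τ i) (bv K (c3 j)) + tri D (bv K 3) (bv K (c3 i)) (tv τ j)) := by
        rw [← map_neg]
        congr 1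
        linear_combination hm0 i j
      rw [f1]
      have f7 := neg_mem (add_mem f5 f4)
      rw [f6] at f7
      convert f7 using 1
      change - tri D (bv O 3) (row a i) (row a j) - _ = _
      ring
    have hyt : ∀ k, y k ∈ J := by
      intro k
      have : y = A⁻¹.mulVec (A.mulVec y) := by
        rw [Matrix.mulVec_mulVec, Matrix.nonsing_inv_mul A hdet, Matrix.one_mulVec]
      rw [this]
      exact mulVec_mem _ _ _ hAy k
    intro k
    by_cases hk : (k : ℕ) < 4
    · rcases low_cases k hk with rfl | rfl | rfl | rfl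
      · rw [e0, h0, map_zero, mul_zero, sub_zero]
        exact zero_mem _
      · rw [e1, h1, map_zero, mul_zero, sub_zero]
        exact zero_mem _
      · rw [e2, h2, map_zero, mul_zero, sub_zero]
        exact zero_mem _
      · rw [e3, h3, map_zero, mul_zero, sub_zero]
        exact zero_mem _
    · have hk' : k = s6 ⟨(k : ℕ) - 4, by omega⟩ := by
        apply Fin.ext
        simp only [s6]
        omega
      rw [hk', ext6_s6]
      exact hyt _

end solve

/-! ## The step -/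

/-- One step of the self-map on arcs, with respect to an ideal `J` of elements of second
order. -/
theorem step_arcJ {K O : Type*} [Field K] [CharZero K] [CommRing O] [Algebra K O] (t : O)
    (J : Ideal O) (hJ1 : J ≤ Ideal.span {t}) (hJ2 : Ideal.span {t ^ 2} ≤ J)
    (hU : ∀ (x : O) (c : K), c ≠ 0 → x - algebraMap K O c ∈ Ideal.span {t} → IsUnit x)
    (S : Subring O) (hS : ∀ x ∈ S, ∀ y : O, x * y = 1 → y ∈ S)
    (D : Ten K) (hDS : ∀ i j k, algebraMap K O (D i j k) ∈ S) (hD : Window D)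
    (τ τ' : Idx → K) (hτ : IsStep D τ τ') (a : Idx → O)
    (haP : ∀ i j k : Fin 3, tri D (row a i) (row a j) (row a k) = 0)
    (haT : ∀ q, a q - t * algebraMap K O (τ q) ∈ J) (haS : ∀ q, a q ∈ S) :
    ∃ a' : Idx → O, (∀ i j k : Fin 3, tri (shift D) (row a' i) (row a' j) (row a' k) = 0) ∧
      (∀ q, a' q - t * algebraMap K O (τ' q) ∈ J) ∧ ∀ q, a' q ∈ S := by
  obtain ⟨m0, c, h0, h1, h2, h3, hm0, hc0, hc1, hc2, hτ'⟩ := hτ
  obtain ⟨m, g0, g1, g2, g3, gm, gt, gS⟩ :=
    solve_normalM hJ1 hJ2 hU hS hDS hD haT haS m0 h0 h1 h2 h3 hm0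
  have ju := jet_rowM haT
  have jn : JetM t J (bv O 3 + m) (bv K 3) m0 := by
    intro j
    have e : (bv O 3 + m) j - (algebraMap K O (bv K 3 j) + t * algebraMap K O (m0 j)) =
        m j - t * algebraMap K O (m0 j) := by
      rw [algebraMap_bv, Pi.add_apply]
      ring
    rw [e]
    exact gt j
  have nS : ∀ j, (bv O 3 + m) j ∈ S := fun j => S.add_mem (bv_mem_S S _ _) (gS j)
  have uS : ∀ i j, row a i j ∈ S := row_mem_S haS
  generalize hn : bv O 3 + m = n at *
  have e0 : c3 0 = 0 := rfl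
  have e1 : c3 1 = 1 := rfl
  have e2 : c3 2 = 2 := rfl
  have hsw : ∀ x y z : Fin 10 → K, tri D x y z = tri D x z y := tri_swap23 hD.swap23
  have hsw1 : ∀ x y z : Fin 10 → K, tri D x y z = tri D y x z := tri_swap12 hD.swap12
  -- the value `A`
  have hA : tri D (row a 0) n n - algebraMap K O (D 0 3 3) ∈ Ideal.span {t} := by
    have h := hJ1 (tri_jetM D hJ2 (ju 0) jn jn)
    rw [e0, tri_bv, Algebra.algebraMap_self, RingHom.id_apply] at h
    have h' : t * algebraMap K O (tri D (tv τ 0) (bv K 3) (bv K 3) +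
        tri D (bv K 0) m0 (bv K 3) + tri D (bv K 0) (bv K 3) m0) ∈ Ideal.span {t} :=
      Ideal.mul_mem_right _ _ (Ideal.mem_span_singleton_self t)
    have := Ideal.add_mem _ h h'
    convert this using 1
    ring
  have hAu := hU _ _ hD.alpha hA
  obtain ⟨A', hA'⟩ := hAu.exists_left_inv
  have hA'S : A' ∈ S := hS _ (tri_mem_S hDS (uS 0) nS nS) _ (by rw [mul_comm]; exact hA')
  have hz133 : D 1 3 3 = 0 := hD.zero 1 3 3 (by decide) (by decide) (by decide) (by decide)
  have hz233 : D 2 3 3 = 0 := hD.zero 2 3 3 (by decide) (by decide) (by decide) (by decide)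
  have hz333 : D 3 3 3 = 0 := hD.zero 3 3 3 (by decide) (by decide) (by decide) (by decide)
  have hB1 : tri D (row a 1) n n - t * algebraMap K O
      (tri D (tv τ 1) (bv K 3) (bv K 3) + 2 * tri D (bv K 1) (bv K 3) m0) ∈ J := by
    have h := tri_jetM D hJ2 (ju 1) jn jn
    rw [e1, tri_bv, Algebra.algebraMap_self, RingHom.id_apply, hz133, map_zero, zero_add,
      hsw (bv K 1) m0 (bv K 3)] at h
    convert h using 4
    ring
  have hB2 : tri D (row a 2) n n - t * algebraMap K O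
      (tri D (tv τ 2) (bv K 3) (bv K 3) + 2 * tri D (bv K 2) (bv K 3) m0) ∈ J := by
    have h := tri_jetM D hJ2 (ju 2) jn jn
    rw [e2, tri_bv, Algebra.algebraMap_self, RingHom.id_apply, hz233, map_zero, zero_add,
      hsw (bv K 2) m0 (bv K 3)] at h
    convert h using 4
    ring
  have hB3 : algebraMap K O (1 / 3) * tri D n n n - t * algebraMap K O
      (tri D (bv K 3) (bv K 3) m0) ∈ J := by
    have h := tri_jetM D hJ2 jn jn jn
    rw [tri_bv, Algebra.algebraMap_self, RingHom.id_apply, hz333, map_zero, zero_add,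
      hsw (bv K 3) m0 (bv K 3), hsw1 m0 (bv K 3) (bv K 3), hsw (bv K 3) m0 (bv K 3)] at h
    have h' := Ideal.mul_mem_left _ (algebraMap K O (1 / 3)) h
    have h3' : algebraMap K O (1 / 3) * algebraMap K O (tri D (bv K 3) (bv K 3) m0 +
        tri D (bv K 3) (bv K 3) m0 + tri D (bv K 3) (bv K 3) m0) =
        algebraMap K O (tri D (bv K 3) (bv K 3) m0) := by
      rw [← map_mul]
      congr 1
      ring
    rw [mul_sub, mul_left_comm, h3'] at h'
    exact h'
  have h13 : (3 : O) * algebraMap K O (1 / 3) = 1 := by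
    rw [← map_ofNat (algebraMap K O) 3, ← map_mul]
    norm_num
  have h3S : algebraMap K O (1 / 3) ∈ S := hS 3 (by exact_mod_cast natCast_mem S 3) _ h13
  obtain ⟨κ1, hκ1, hκ1t, hκ1S⟩ : ∃ κ1, κ1 * tri D (row a 0) n n = tri D (row a 1) n n ∧
      κ1 - t * algebraMap K O (c 0) ∈ J ∧ κ1 ∈ S := by
    have h : A' * tri D (row a 1) n n * tri D (row a 0) n n = tri D (row a 1) n n := by
      linear_combination tri D (row a 1) n n * hA'
    exact ⟨_, h, kappa_jetM hJ2 hA hB1 hc0 hAu h, S.mul_mem hA'S (tri_mem_S hDS (uS 1) nS nS)⟩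
  obtain ⟨κ2, hκ2, hκ2t, hκ2S⟩ : ∃ κ2, κ2 * tri D (row a 0) n n = tri D (row a 2) n n ∧
      κ2 - t * algebraMap K O (c 1) ∈ J ∧ κ2 ∈ S := by
    have h : A' * tri D (row a 2) n n * tri D (row a 0) n n = tri D (row a 2) n n := by
      linear_combination tri D (row a 2) n n * hA'
    exact ⟨_, h, kappa_jetM hJ2 hA hB2 hc1 hAu h, S.mul_mem hA'S (tri_mem_S hDS (uS 2) nS nS)⟩
  obtain ⟨κ3, hκ3, hκ3t, hκ3S⟩ : ∃ κ3, κ3 * tri D (row a 0) n n =
      algebraMap K O (1 / 3) * tri D n n n ∧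
      κ3 - t * algebraMap K O (c 2) ∈ J ∧ κ3 ∈ S := by
    have h : A' * (algebraMap K O (1 / 3) * tri D n n n) * tri D (row a 0) n n =
        algebraMap K O (1 / 3) * tri D n n n := by
      linear_combination (algebraMap K O (1 / 3) * tri D n n n) * hA'
    exact ⟨_, h, kappa_jetM hJ2 hA hB3 hc2 hAu h,
      S.mul_mem hA'S (S.mul_mem h3S (tri_mem_S hDS nS nS nS))⟩
  have hκ3' : 3 * (κ3 * tri D (row a 0) n n) = tri D n n n := by
    rw [hκ3]
    linear_combination tri D n n n * h13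
  -- the residual plane
  obtain ⟨w, hwdef⟩ : ∃ w : Fin 3 → Fin 10 → O,
      w = ![row a 1 - κ1 • row a 0, row a 2 - κ2 • row a 0, n - κ3 • row a 0] := ⟨_, rfl⟩
  have hw := Pool.Agent.Helper21.CY.plane_vanish D hD.swap12 hD.swap23 (row a) n haP gm
    κ1 κ2 κ3 hκ1 hκ2 hκ3' w hwdef
  have w0 : w 0 = row a 1 - κ1 • row a 0 := by rw [hwdef]; rfl
  have w1 : w 1 = row a 2 - κ2 • row a 0 := by rw [hwdef]; rfl
  have w2 : w 2 = n - κ3 • row a 0 := by rw [hwdef]; rfl
  have w0S : ∀ j, w 0 j ∈ S := by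
    intro j
    rw [w0, Pi.sub_apply, Pi.smul_apply, smul_eq_mul]
    exact S.sub_mem (uS _ _) (S.mul_mem hκ1S (uS _ _))
  have w1S : ∀ j, w 1 j ∈ S := by
    intro j
    rw [w1, Pi.sub_apply, Pi.smul_apply, smul_eq_mul]
    exact S.sub_mem (uS _ _) (S.mul_mem hκ2S (uS _ _))
  have w2S : ∀ j, w 2 j ∈ S := by
    intro j
    rw [w2, Pi.sub_apply, Pi.smul_apply, smul_eq_mul]
    exact S.sub_mem (nS _) (S.mul_mem hκ3S (uS _ _))
  have jw0 := jet_sub_smulM hJ1 hJ2 (ju 1) (ju 0) hκ1t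
  have jw1 := jet_sub_smulM hJ1 hJ2 (ju 2) (ju 0) hκ2t
  have jw2 := jet_sub_smulM hJ1 hJ2 jn (ju 0) hκ3t
  rw [← w0, e0, e1] at jw0
  rw [← w1, e0, e2] at jw1
  rw [← w2, e0] at jw2
  have r01 : row a 0 1 = 0 := by simp [row, bv, tv, c3]
  have r02 : row a 0 2 = 0 := by simp [row, bv, tv, c3]
  have r11 : row a 1 1 = 1 := by simp [row, bv, tv, c3]
  have r12 : row a 1 2 = 0 := by simp [row, bv, tv, c3]
  have r21 : row a 2 1 = 0 := by simp [row, bv, tv, c3]
  have r22 : row a 2 2 = 1 := by simp [row, bv, tv, c3]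
  have n1 : n 1 = 0 := by rw [← hn]; simp [bv, g1]
  have n2 : n 2 = 0 := by rw [← hn]; simp [bv, g2]
  have w01 : w 0 1 = 1 := by rw [w0]; simp [r01, r11]
  have w02 : w 0 2 = 0 := by rw [w0]; simp [r02, r12]
  have w11 : w 1 1 = 0 := by rw [w1]; simp [r01, r21]
  have w12 : w 1 2 = 1 := by rw [w1]; simp [r02, r22]
  have w21 : w 2 1 = 0 := by rw [w2]; simp [r01, n1]
  have w22 : w 2 2 = 0 := by rw [w2]; simp [r02, n2]
  have wt : ∀ (i : Fin 3) (x x₁ : Fin 10 → K) (j : Fin 10), JetM t J (w i) x x₁ → x j = 0 →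
      w i j - t * algebraMap K O (x₁ j) ∈ J := by
    intro i x x₁ j h hx
    have := h j
    rwa [hx, map_zero, zero_add] at this
  have hp : w 0 3 ∈ Ideal.span {t} := mem_of_jetM hJ1 (wt 0 _ _ 3 jw0 (by simp [bv]))
  have hq : w 1 3 ∈ Ideal.span {t} := mem_of_jetM hJ1 (wt 1 _ _ 3 jw1 (by simp [bv]))
  have hr : w 2 3 - 1 ∈ J := by
    have h := jw2 3
    simpa [bv, h3] using h
  have hru : IsUnit (w 2 3) := by
    refine hU _ 1 one_ne_zero ?_
    rw [map_one]
    exact hJ1 hr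
  obtain ⟨r', hr'⟩ := hru.exists_left_inv
  have hr'S : r' ∈ S := hS _ (w2S 3) _ (by rw [mul_comm]; exact hr')
  have hr'1 : r' - 1 ∈ J := by
    have : r' - 1 = - r' * (w 2 3 - 1) := by linear_combination hr'
    rw [this]
    exact Ideal.mul_mem_left _ _ hr
  obtain ⟨M, hM⟩ : ∃ M : Fin 3 → Fin 3 → O,
      M = ![![1, 0, - (w 0 3) * r'], ![0, 1, - (w 1 3) * r'], ![0, 0, r']] := ⟨_, rfl⟩
  have hw' := Pool.Agent.Helper21.CY.plane_comb D w hw M
  obtain ⟨w', hw'def⟩ : ∃ w' : Fin 3 → Fin 10 → O, w' = fun i => ∑ l, M i l • w l := ⟨_, rfl⟩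
  have hw'3 : ∀ i j k, tri D (w' i) (w' j) (w' k) = 0 := by
    intro i j k
    rw [hw'def]
    exact hw' i j k
  have w'0 : ∀ j, w' 0 j = w 0 j - w 0 3 * r' * w 2 j := by
    intro j
    rw [hw'def, hM]
    simp [Fin.sum_univ_three]
    ring
  have w'1 : ∀ j, w' 1 j = w 1 j - w 1 3 * r' * w 2 j := by
    intro j
    rw [hw'def, hM]
    simp [Fin.sum_univ_three]
    ring
  have w'2 : ∀ j, w' 2 j = r' * w 2 j := by
    intro j
    rw [hw'def, hM]
    simp [Fin.sum_univ_three]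
  have w'S : ∀ i j, w' i j ∈ S := by
    intro i j
    fin_cases i
    · change w' 0 j ∈ S
      rw [w'0]
      exact S.sub_mem (w0S j) (S.mul_mem (S.mul_mem (w0S 3) hr'S) (w2S j))
    · change w' 1 j ∈ S
      rw [w'1]
      exact S.sub_mem (w1S j) (S.mul_mem (S.mul_mem (w1S 3) hr'S) (w2S j))
    · change w' 2 j ∈ S
      rw [w'2]
      exact S.mul_mem hr'S (w2S j)
  have hw'δ : ∀ i j : Fin 3, w' i (c3 j + 1) = if j = i then 1 else 0 := by
    have f0 : c3 0 + 1 = 1 := rfl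
    have f1 : c3 1 + 1 = 2 := rfl
    have f2 : c3 2 + 1 = 3 := rfl
    intro i j
    fin_cases i <;> fin_cases j
    · simp [f0, w'0, w01, w21]
    · simp [f1, w'0, w02, w22]
    · simp only [Fin.reduceFinMk, Fin.zero_eta, f2, w'0]
      rw [if_neg (by decide)]
      linear_combination (- w 0 3) * hr'
    · simp [f0, w'1, w11, w21]
    · simp [f1, w'1, w12, w22]
    · simp only [Fin.reduceFinMk, Fin.mk_one, f2, w'1]
      rw [if_neg (by decide)]
      linear_combination (- w 1 3) * hr'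
    · simp [f0, w'2, w21]
    · simp [f1, w'2, w22]
    · simp only [Fin.reduceFinMk, f2, w'2, if_true]
      exact hr'
  refine ⟨fun q : Idx => w' q.1 (Fin.castLE (by norm_num) q.2 + 4), ?_, ?_, fun q => w'S _ _⟩
  · intro i j k
    rw [row_shift w' hw'δ, row_shift w' hw'δ, row_shift w' hw'δ, tri_shift]
    exact hw'3 i j k
  · rintro ⟨i, k⟩
    obtain ⟨t0, t1, t2⟩ := hτ' k
    obtain ⟨j, hj⟩ : ∃ j : Fin 10, j = Fin.castLE (by norm_num) k + 4 := ⟨_, rfl⟩
    have hj123 : j ≠ 1 ∧ j ≠ 2 ∧ j ≠ 3 := by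
      rw [hj]
      fin_cases k <;> decide
    rw [← hj] at t0 t1 t2
    have b1 : (bv K 1 : Fin 10 → K) j = 0 := by rw [bv_apply, if_neg hj123.1]
    have b2 : (bv K 2 : Fin 10 → K) j = 0 := by rw [bv_apply, if_neg hj123.2.1]
    have b3 : (bv K 3 : Fin 10 → K) j = 0 := by rw [bv_apply, if_neg hj123.2.2]
    have k0 := wt 0 _ _ j jw0 b1
    have k1 := wt 1 _ _ j jw1 b2
    have k2 := wt 2 _ _ j jw2 b3
    have k2' := mem_of_jetM hJ1 k2
    change w' i (Fin.castLE (by norm_num) k + 4) - t * algebraMap K O (τ' (i, k)) ∈ _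
    rw [← hj]
    fin_cases i
    · change w' 0 j - t * algebraMap K O (τ' (0, k)) ∈ _
      rw [w'0, t0]
      have h := Ideal.sub_mem _ k0 (Ideal.mul_mem_left _ r' (mul_mem_sqM hJ2 hp k2'))
      convert h using 1
      ring
    · change w' 1 j - t * algebraMap K O (τ' (1, k)) ∈ _
      rw [w'1, t1]
      have h := Ideal.sub_mem _ k1 (Ideal.mul_mem_left _ r' (mul_mem_sqM hJ2 hq k2'))
      convert h using 1
      ring
    · change w' 2 j - t * algebraMap K O (τ' (2, k)) ∈ _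
      rw [w'2, t2]
      have h := Ideal.add_mem _ k2 (Ideal.mul_mem_right (w 2 j) _ hr'1)
      convert h using 1
      ring

/-- One step of the self-map on arcs. -/
theorem step_arcM {K O : Type*} [Field K] [CharZero K] [CommRing O] [Algebra K O] (t : O)
    (m : Ideal O) (htm : t ∈ m)
    (hU : ∀ (x : O) (c : K), c ≠ 0 → x - algebraMap K O c ∈ m → IsUnit x)
    (S : Subring O) (hS : ∀ x ∈ S, ∀ y : O, x * y = 1 → y ∈ S)
    (D : Ten K) (hDS : ∀ i j k, algebraMap K O (D i j k) ∈ S) (hD : Window D)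
    (τ τ' : Idx → K) (hτ : IsStep D τ τ') (a : Idx → O) (ha : ArcM t m S D τ a) :
    ∃ a' : Idx → O, ArcM t m S (shift D) τ' a' := by
  have htm' : Ideal.span {t} ≤ m := by
    rw [Ideal.span_singleton_le_iff_mem]
    exact htm
  have hJ2 : Ideal.span {t ^ 2} ≤ Ideal.span {t} * m := by
    rw [Ideal.span_singleton_le_iff_mem, pow_two]
    exact Ideal.mul_mem_mul (Ideal.mem_span_singleton_self t) htm
  obtain ⟨a', h1, h2, h3⟩ := step_arcJ t (Ideal.span {t} * m) Ideal.mul_le_left hJ2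
    (fun x c hc hx => hU x c hc (htm' hx)) S hS D hDS hD τ τ' hτ a ha.plane ha.tangent ha.mem
  exact ⟨a', h1, h2, h3⟩

end Pool.Agent.Helper30.CQ
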